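import Pool.Agent.Lib_helper99.FGA.Wanted

/-! Block A11 of FGA (helper85), after FGP_P14c (helper45). -/

set_option autoImplicit false

namespace Pool.Agent.FGA

open Finset Pool.Agent.Var35 Pool.Agent.Var73 Pool.Agent.PV Pool.Agent.FGP
open scoped ArithmeticFunction ArithmeticFunction.Moebius

/-- the local factor of `bM` -/
noncomputable def a11_loc (M p e : ℕ) : ℝ :=
  (if p ∣ M then (if e = 1 then -1 else 0) else
    if e = 1 then 2 / ((p : ℝ) - 2) else
    if e = 2 then -(p : ℝ) / ((p : ℝ) - 2) else 0)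

theorem a11_bb (M d : ℕ) : bM M d = ∏ p ∈ d.primeFactors, a11_loc M p (d.factorization p) := rfl

theorem a11_mul (M : ℕ) {m n : ℕ} (h : m.Coprime n) : bM M (m * n) = bM M m * bM M n := by
  rw [a11_bb, a11_bb, a11_bb, h.primeFactors_mul, Finset.prod_union h.disjoint_primeFactors]
  congr 1
  · refine Finset.prod_congr rfl fun p hp => ?_
    rw [Nat.factorization_eq_of_coprime_left h (Nat.mem_primeFactors_iff_mem_primeFactorsList.mp hp)]
  · refine Finset.prod_congr rfl fun p hp => ?_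
    rw [Nat.factorization_eq_of_coprime_right h (Nat.mem_primeFactors_iff_mem_primeFactorsList.mp hp)]

theorem a11_one (M : ℕ) : bM M 1 = 1 := by simp [a11_bb]

theorem a11_pow (M : ℕ) {p : ℕ} (hp : p.Prime) {j : ℕ} (hj : j ≠ 0) :
    bM M (p ^ j) = a11_loc M p j := by
  rw [a11_bb, Nat.primeFactors_prime_pow hj hp, Finset.prod_singleton, hp.factorization_pow]
  simp

theorem a11_pow3 (M : ℕ) {p : ℕ} (hp : p.Prime) {j : ℕ} (hj : 3 ≤ j) : bM M (p ^ j) = 0 := by
  rw [a11_pow M hp (by omega), a11_loc]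
  split_ifs <;> first | rfl | omega

theorem a11_three {M : ℕ} (h2M : 2 ∣ M) {p : ℕ} (hp : p.Prime) (h2 : ¬ p ∣ M) : (3 : ℝ) ≤ p := by
  have h1 := hp.two_le
  have h3 : p ≠ 2 := by
    intro h
    exact h2 (h ▸ h2M)
  have : 3 ≤ p := by omega
  exact_mod_cast this

/-! ## Summability -/

noncomputable def a11_f (M d : ℕ) : ℝ := |bM M d| * (d : ℝ) ^ (-(3 / 4) : ℝ)

theorem a11_nonneg (M d : ℕ) : 0 ≤ a11_f M d :=
  mul_nonneg (abs_nonneg _) (Real.rpow_nonneg (Nat.cast_nonneg _) _)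

theorem a11_f_one (M : ℕ) : a11_f M 1 = 1 := by simp [a11_f, a11_one]

theorem a11_f_mul (M : ℕ) {a b : ℕ} (h : Nat.Coprime a b) :
    a11_f M (a * b) = a11_f M a * a11_f M b := by
  unfold a11_f
  rw [a11_mul M h, abs_mul, Nat.cast_mul,
    Real.mul_rpow (Nat.cast_nonneg _) (Nat.cast_nonneg _)]
  ring

theorem a11_zero_pow (M p : ℕ) (hp : p.Prime) (k : ℕ) (hk : 3 ≤ k) : a11_f M (p ^ k) = 0 := by
  unfold a11_f
  rw [a11_pow3 M hp hk]
  simp

theorem a11_summ (M p : ℕ) (hp : p.Prime) : Summable (fun n : ℕ => ‖a11_f M (p ^ n)‖) := by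
  apply summable_of_ne_finset_zero (s := Finset.range 3)
  intro b hb
  rw [a11_zero_pow M p hp b (by simpa using hb), norm_zero]

theorem a11_local (M : ℕ) (h2M : 2 ∣ M) (p : ℕ) (hp : p.Prime) :
    ∑' n : ℕ, a11_f M (p ^ n) ≤ 1 + (9 * (p : ℝ) ^ (-(3 / 2) : ℝ) + (if p ∣ M then 1 else 0)) := by
  rw [tsum_eq_sum (s := Finset.range 3)
    (fun b hb => a11_zero_pow M p hp b (by simpa using hb))]
  rw [Finset.sum_range_succ, Finset.sum_range_succ, Finset.sum_range_one, pow_zero, a11_f_one]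
  have hp2 : (2 : ℝ) ≤ p := by exact_mod_cast hp.two_le
  have hp0 : (0 : ℝ) < p := by linarith
  have hsq : (p : ℝ) ^ (-(3 / 2) : ℝ) = (p : ℝ) ^ (-(3 / 4) : ℝ) * (p : ℝ) ^ (-(3 / 4) : ℝ) := by
    rw [← Real.rpow_add hp0]
    norm_num
  have h34 : 0 < (p : ℝ) ^ (-(3 / 4) : ℝ) := Real.rpow_pos_of_pos hp0 _
  have h32 : 0 < (p : ℝ) ^ (-(3 / 2) : ℝ) := Real.rpow_pos_of_pos hp0 _
  have e2 : 1 / (p : ℝ) ≤ (p : ℝ) ^ (-(3 / 4) : ℝ) := by
    rw [one_div, ← Real.rpow_neg_one]
    exact Real.rpow_le_rpow_of_exponent_le (by linarith) (by norm_num)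
  by_cases hpM : p ∣ M
  · rw [if_pos hpM]
    have h1 : a11_f M (p ^ 1) ≤ 1 := by
      unfold a11_f
      rw [a11_pow M hp one_ne_zero, pow_one, a11_loc, if_pos hpM, if_pos rfl, abs_neg, abs_one,
        one_mul]
      exact Real.rpow_le_one_of_one_le_of_nonpos (by linarith) (by norm_num)
    have h2 : a11_f M (p ^ 2) = 0 := by
      unfold a11_f
      rw [a11_pow M hp two_ne_zero, a11_loc, if_pos hpM, if_neg (by norm_num), abs_zero, zero_mul]
    linarith
  · rw [if_neg hpM]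
    have h3 := a11_three h2M hp hpM
    have h1 : a11_f M (p ^ 1) ≤ 6 * (p : ℝ) ^ (-(3 / 2) : ℝ) := by
      unfold a11_f
      rw [a11_pow M hp one_ne_zero, pow_one, hsq]
      have e3 : |a11_loc M p 1| ≤ 6 * (p : ℝ) ^ (-(3 / 4) : ℝ) := by
        refine le_trans ?_ (mul_le_mul_of_nonneg_left e2 (by norm_num : (0 : ℝ) ≤ 6))
        unfold a11_loc
        rw [if_neg hpM, if_pos rfl, abs_of_pos (by apply div_pos two_pos; linarith),
          div_le_iff₀ (by linarith)]
        field_simp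
        linarith
      calc |a11_loc M p 1| * (p : ℝ) ^ (-(3 / 4) : ℝ)
          ≤ (6 * (p : ℝ) ^ (-(3 / 4) : ℝ)) * (p : ℝ) ^ (-(3 / 4) : ℝ) :=
            mul_le_mul_of_nonneg_right e3 h34.le
        _ = _ := by ring
    have h2 : a11_f M (p ^ 2) ≤ 3 * (p : ℝ) ^ (-(3 / 2) : ℝ) := by
      unfold a11_f
      rw [a11_pow M hp two_ne_zero]
      have e0 : ((p ^ 2 : ℕ) : ℝ) ^ (-(3 / 4) : ℝ) = (p : ℝ) ^ (-(3 / 2) : ℝ) := by
        rw [Nat.cast_pow, ← Real.rpow_natCast, ← Real.rpow_mul hp0.le]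
        norm_num
      rw [e0]
      apply mul_le_mul_of_nonneg_right _ (Real.rpow_nonneg hp0.le _)
      unfold a11_loc
      rw [if_neg hpM, if_neg (by norm_num), if_pos rfl, neg_div, abs_neg,
        abs_of_pos (by apply div_pos hp0; linarith), div_le_iff₀ (by linarith)]
      linarith
    linarith

theorem a11_sumP : Summable (fun n : ℕ => (n : ℝ) ^ (-(3 / 2) : ℝ)) :=
  Real.summable_nat_rpow.2 (by norm_num)

theorem a11_bound (M : ℕ) (hM : 1 ≤ M) (h2M : 2 ∣ M) (u : Finset ℕ) :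
    ∑ d ∈ u, a11_f M d ≤
      Real.exp (9 * ∑' n : ℕ, (n : ℝ) ^ (-(3 / 2) : ℝ) + M.primeFactors.card) := by
  classical
  set N := u.sup id + 1 with hN
  set s := Finset.range N with hs
  obtain ⟨hsum, hhas⟩ := EulerProduct.summable_and_hasSum_factoredNumbers_prod_filter_prime_tsum
    (a11_f_one M) (fun h => a11_f_mul M h) (fun hp => a11_summ M _ hp) s
  have hmem : ∀ d ∈ u.filter (· ≠ 0), d ∈ Nat.factoredNumbers s := by
    intro d hd
    rw [Finset.mem_filter] at hd
    rw [Nat.mem_factoredNumbers]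
    refine ⟨hd.2, fun p hp => ?_⟩
    rw [hs, Finset.mem_range, hN]
    have h1 : p ≤ d := Nat.le_of_dvd (Nat.pos_of_ne_zero hd.2) (Nat.dvd_of_mem_primeFactorsList hp)
    have h2 : d ≤ u.sup id := Finset.le_sup (f := id) hd.1
    omega
  have h0 : ∑ d ∈ u, a11_f M d = ∑ d ∈ u.filter (· ≠ 0), a11_f M d := by
    rw [Finset.sum_filter]
    refine Finset.sum_congr rfl fun d _ => ?_
    by_cases hd : d = 0
    · subst hd
      simp [a11_f, Real.zero_rpow]
    · rw [if_pos hd]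
  have h1 : ∑ d ∈ u.filter (· ≠ 0), a11_f M d =
      ∑ m ∈ (u.filter (· ≠ 0)).subtype (fun d => d ∈ Nat.factoredNumbers s), a11_f M m := by
    rw [Finset.sum_subtype_of_mem (a11_f M) hmem]
  have h2 : ∑ m ∈ (u.filter (· ≠ 0)).subtype (fun d => d ∈ Nat.factoredNumbers s), a11_f M m ≤
      ∏ p ∈ s with p.Prime, ∑' n : ℕ, a11_f M (p ^ n) :=
    sum_le_hasSum _ (fun m _ => a11_nonneg M _) hhas
  have h3 : ∏ p ∈ s with p.Prime, ∑' n : ℕ, a11_f M (p ^ n) ≤
      ∏ p ∈ s with p.Prime,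
        Real.exp (9 * (p : ℝ) ^ (-(3 / 2) : ℝ) + (if p ∣ M then 1 else 0)) := by
    apply Finset.prod_le_prod
    · intro p _
      exact tsum_nonneg fun n => a11_nonneg M _
    · intro p hp
      rw [Finset.mem_filter] at hp
      refine (a11_local M h2M p hp.2).trans ?_
      have := Real.add_one_le_exp (9 * (p : ℝ) ^ (-(3 / 2) : ℝ) + (if p ∣ M then (1 : ℝ) else 0))
      linarith
  rw [h0, h1]
  refine h2.trans (h3.trans ?_)
  rw [← Real.exp_sum]
  apply Real.exp_le_exp.2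
  rw [Finset.sum_add_distrib]
  apply add_le_add
  · rw [← Finset.mul_sum]
    apply mul_le_mul_of_nonneg_left _ (by norm_num)
    exact a11_sumP.sum_le_tsum _ (fun n _ => Real.rpow_nonneg (Nat.cast_nonneg _) _)
  · rw [← Finset.sum_filter, Finset.sum_const, nsmul_eq_mul, mul_one]
    have : ((s.filter (fun p => p.Prime)).filter (fun p => p ∣ M)) ⊆ M.primeFactors := by
      intro p hp
      rw [Finset.mem_filter, Finset.mem_filter] at hp
      rw [Nat.mem_primeFactors]
      exact ⟨hp.1.2, hp.2, by omega⟩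
    exact_mod_cast Finset.card_le_card this

theorem a11_summable (M : ℕ) (hM : 1 ≤ M) (h2M : 2 ∣ M) :
    Summable (fun d : ℕ => |bM M d| * (1 + Real.log d) / d) := by
  have hS : Summable (a11_f M) := summable_of_sum_le (a11_nonneg M) (a11_bound M hM h2M)
  refine Summable.of_nonneg_of_le (fun d => ?_) (fun d => ?_) (hS.mul_left 5)
  · rcases Nat.eq_zero_or_pos d with hd | hd
    · subst hd; simp
    · have : 0 ≤ Real.log d := Real.log_natCast_nonneg d
      positivity
  · rcases Nat.eq_zero_or_pos d with hd | hd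
    · subst hd
      simp [a11_f, Real.zero_rpow]
    · have hd1 : (1 : ℝ) ≤ d := by exact_mod_cast hd
      have hd0 : (0 : ℝ) < d := by linarith
      have hlog : Real.log d ≤ (d : ℝ) ^ (1 / 4 : ℝ) / (1 / 4) :=
        Real.log_le_rpow_div hd0.le (by norm_num)
      have hone : (1 : ℝ) ≤ (d : ℝ) ^ (1 / 4 : ℝ) := Real.one_le_rpow hd1 (by norm_num)
      have hle : (1 + Real.log d) / d ≤ 5 * (d : ℝ) ^ (-(3 / 4) : ℝ) := by
        rw [div_le_iff₀ hd0]
        have e : (d : ℝ) ^ (-(3 / 4) : ℝ) * d = (d : ℝ) ^ (1 / 4 : ℝ) := by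
          nth_rewrite 2 [← Real.rpow_one (d : ℝ)]
          rw [← Real.rpow_add hd0]
          norm_num
        rw [mul_assoc, e]
        linarith
      calc |bM M d| * (1 + Real.log d) / d = |bM M d| * ((1 + Real.log d) / d) := by ring
        _ ≤ |bM M d| * (5 * (d : ℝ) ^ (-(3 / 4) : ℝ)) :=
          mul_le_mul_of_nonneg_left hle (abs_nonneg _)
        _ = 5 * a11_f M d := by unfold a11_f; ring

theorem a11_norm_summ (M : ℕ) (hM : 1 ≤ M) (h2M : 2 ∣ M) :
    Summable (fun d : ℕ => ‖bM M d / (d : ℝ)‖) := by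
  refine Summable.of_nonneg_of_le (fun _ => norm_nonneg _) (fun d => ?_) (a11_summable M hM h2M)
  rw [Real.norm_eq_abs, abs_div, Nat.abs_cast]
  rcases Nat.eq_zero_or_pos d with hd | hd
  · subst hd; simp
  · have h1 : 0 ≤ Real.log d := Real.log_natCast_nonneg d
    have h2 : (0 : ℝ) < d := by exact_mod_cast hd
    apply div_le_div_of_nonneg_right _ h2.le
    nlinarith [abs_nonneg (bM M d)]

theorem a11_norm_summ2 (M : ℕ) (hM : 1 ≤ M) (h2M : 2 ∣ M) :
    Summable (fun d : ℕ => ‖bM M d / (d : ℝ) ^ 2‖) := by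
  refine Summable.of_nonneg_of_le (fun _ => norm_nonneg _) (fun d => ?_) (a11_norm_summ M hM h2M)
  rw [Real.norm_eq_abs, Real.norm_eq_abs, abs_div, abs_div, Nat.abs_cast,
    abs_of_nonneg (by positivity : (0 : ℝ) ≤ (d : ℝ) ^ 2)]
  rcases Nat.eq_zero_or_pos d with hd | hd
  · subst hd; simp
  · have h2 : (1 : ℝ) ≤ d := by exact_mod_cast hd
    apply div_le_div_of_nonneg_left (abs_nonneg _) (by linarith)
    nlinarith

/-! ## Euler products -/

theorem a11_locsum (M : ℕ) {p : ℕ} (hp : p.Prime) (g : ℕ → ℝ) :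
    ∑' e : ℕ, bM M (p ^ e) * g e = g 0 + a11_loc M p 1 * g 1 + a11_loc M p 2 * g 2 := by
  rw [tsum_eq_sum (s := range 3)]
  · rw [sum_range_succ, sum_range_succ, sum_range_succ, sum_range_zero]
    rw [a11_pow M hp one_ne_zero, a11_pow M hp two_ne_zero, pow_zero, a11_one]
    ring
  · intro e he
    rw [mem_range, not_lt] at he
    rw [a11_pow3 M hp he, zero_mul]

theorem a11_ep1 (M : ℕ) (hM : 1 ≤ M) (h2M : 2 ∣ M) :
    HasProd (fun p : Nat.Primes => if (p : ℕ) ∣ M then 1 - 1 / ((p : ℕ) : ℝ) else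
    (((p : ℕ) : ℝ) - 1) ^ 2 / (((p : ℕ) : ℝ) * (((p : ℕ) : ℝ) - 2))) (∑' d : ℕ, bM M d / d) := by
  have h := EulerProduct.eulerProduct_hasProd (f := fun d : ℕ => bM M d / (d : ℝ))
    (by simp [a11_one]) (by
      intro m n hmn
      show bM M (m * n) / ((m * n : ℕ) : ℝ) = bM M m / (m : ℝ) * (bM M n / (n : ℝ))
      rw [a11_mul M hmn]
      push_cast
      rw [mul_div_mul_comm]) (a11_norm_summ M hM h2M) (by simp)
  refine h.congr_fun ?_
  intro p
  have h1 : ∀ e : ℕ, bM M ((p : ℕ) ^ e) / (((p : ℕ) ^ e : ℕ) : ℝ) = bM M ((p : ℕ) ^ e) *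
      (((p : ℕ) : ℝ) ^ e)⁻¹ := by
    intro e
    rw [Nat.cast_pow, div_eq_mul_inv]
  show (if (p : ℕ) ∣ M then 1 - 1 / ((p : ℕ) : ℝ) else
    (((p : ℕ) : ℝ) - 1) ^ 2 / (((p : ℕ) : ℝ) * (((p : ℕ) : ℝ) - 2))) =
      ∑' e : ℕ, bM M ((p : ℕ) ^ e) / (((p : ℕ) ^ e : ℕ) : ℝ)
  rw [tsum_congr h1, a11_locsum M p.2]
  by_cases h2 : (p : ℕ) ∣ M
  · rw [if_pos h2, a11_loc, a11_loc, if_pos h2, if_pos h2, if_pos rfl, if_neg (by norm_num)]
    rw [pow_zero, pow_one]
    ring
  · have h3 := a11_three h2M p.2 h2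
    have h4 : ((p : ℕ) : ℝ) - 2 ≠ 0 := by linarith
    have h5 : ((p : ℕ) : ℝ) ≠ 0 := by linarith
    rw [if_neg h2, a11_loc, a11_loc, if_neg h2, if_neg h2, if_pos rfl, if_neg (by norm_num),
      if_pos rfl]
    field_simp
    ring

theorem a11_ep2 (M : ℕ) (hM : 1 ≤ M) (h2M : 2 ∣ M) :
    HasProd (fun p : Nat.Primes => if (p : ℕ) ∣ M then 1 - (((p : ℕ) : ℝ) ^ 2)⁻¹ else
    ((((p : ℕ) : ℝ) ^ 2 - 1) * (((p : ℕ) : ℝ) - 1) ^ 2) /
      (((p : ℕ) : ℝ) ^ 3 * (((p : ℕ) : ℝ) - 2))) (∑' d : ℕ, bM M d / (d : ℝ) ^ 2) := by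
  have h := EulerProduct.eulerProduct_hasProd (f := fun d : ℕ => bM M d / (d : ℝ) ^ 2)
    (by simp [a11_one]) (by
      intro m n hmn
      show bM M (m * n) / ((m * n : ℕ) : ℝ) ^ 2 = bM M m / (m : ℝ) ^ 2 * (bM M n / (n : ℝ) ^ 2)
      rw [a11_mul M hmn]
      push_cast
      rw [mul_pow, mul_div_mul_comm]) (a11_norm_summ2 M hM h2M) (by simp)
  refine h.congr_fun ?_
  intro p
  have h1 : ∀ e : ℕ, bM M ((p : ℕ) ^ e) / (((p : ℕ) ^ e : ℕ) : ℝ) ^ 2 = bM M ((p : ℕ) ^ e) *
      ((((p : ℕ) : ℝ) ^ e) ^ 2)⁻¹ := by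
    intro e
    rw [Nat.cast_pow, div_eq_mul_inv]
  show (if (p : ℕ) ∣ M then 1 - (((p : ℕ) : ℝ) ^ 2)⁻¹ else
    ((((p : ℕ) : ℝ) ^ 2 - 1) * (((p : ℕ) : ℝ) - 1) ^ 2) /
      (((p : ℕ) : ℝ) ^ 3 * (((p : ℕ) : ℝ) - 2))) =
      ∑' e : ℕ, bM M ((p : ℕ) ^ e) / (((p : ℕ) ^ e : ℕ) : ℝ) ^ 2
  rw [tsum_congr h1, a11_locsum M p.2]
  by_cases h2 : (p : ℕ) ∣ M
  · rw [if_pos h2, a11_loc, a11_loc, if_pos h2, if_pos h2, if_pos rfl, if_neg (by norm_num)]
    rw [pow_zero, pow_one]
    ring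
  · have h3 := a11_three h2M p.2 h2
    have h4 : ((p : ℕ) : ℝ) - 2 ≠ 0 := by linarith
    have h5 : ((p : ℕ) : ℝ) ≠ 0 := by linarith
    rw [if_neg h2, a11_loc, a11_loc, if_neg h2, if_neg h2, if_pos rfl, if_neg (by norm_num),
      if_pos rfl]
    field_simp
    ring

theorem a11_zeta : HasProd (fun p : Nat.Primes => (1 - (((p : ℕ) : ℝ) ^ 2)⁻¹)⁻¹)
    (Real.pi ^ 2 / 6) := by
  have hs : Summable (fun n : ℕ => ‖((n : ℝ) ^ 2)⁻¹‖) := by
    have := (Real.summable_nat_pow_inv (p := 2)).2 (by norm_num)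
    refine this.congr fun n => ?_
    rw [Real.norm_eq_abs, abs_of_nonneg (by positivity)]
  let F : ℕ →*₀ ℝ :=
    { toFun := fun n => ((n : ℝ) ^ 2)⁻¹
      map_zero' := by simp
      map_one' := by simp
      map_mul' := fun m n => by push_cast; rw [mul_pow, mul_inv] }
  have h := EulerProduct.eulerProduct_completely_multiplicative_hasProd (f := F) hs
  have h2 : ∑' n : ℕ, F n = Real.pi ^ 2 / 6 := by
    have := hasSum_zeta_two.tsum_eq
    rw [← this]
    refine tsum_congr fun n => ?_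
    show ((n : ℝ) ^ 2)⁻¹ = 1 / (n : ℝ) ^ 2
    rw [one_div]
  rw [h2] at h
  exact h

/-! ## The log -/

lemma a11_zero (M p : ℕ) (hp : p.Prime) (d : ℕ) (hd : d ≠ 0) (h : 3 ≤ d.factorization p) :
    bM M d = 0 := by
  rw [a11_bb]
  apply Finset.prod_eq_zero (i := p)
  · rw [Nat.mem_primeFactors]
    refine ⟨hp, ?_, hd⟩
    by_contra hn
    have := Nat.factorization_eq_zero_of_not_dvd hn
    omega
  · rw [a11_loc]
    split_ifs <;> first | rfl | omega

lemma a11_S (M : ℕ) (hM : 1 ≤ M) (h2M : 2 ∣ M) : Summable (fun d : ℕ => bM M d / (d : ℝ)) :=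
  (a11_norm_summ M hM h2M).of_norm

/-- the part with exact power `k` -/
noncomputable def a11_g (M p k d : ℕ) : ℝ := if d.factorization p = k then bM M d / d else 0

lemma a11_g_summ (M : ℕ) (hM : 1 ≤ M) (h2M : 2 ∣ M) (p k : ℕ) : Summable (a11_g M p k) := by
  apply Summable.of_norm_bounded (a11_norm_summ M hM h2M)
  intro d
  unfold a11_g
  split_ifs
  · exact le_refl _
  · rw [norm_zero]; exact norm_nonneg _

lemma a11_g_tsum (M p k : ℕ) (hp : p.Prime) (_hk : 1 ≤ k) :
    ∑' d, a11_g M p k d =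
      bM M (p ^ k) / (p ^ k : ℕ) * ∑' d : ℕ, (if p ∣ d then 0 else bM M d / d) := by
  have hinj : Function.Injective (fun d : ℕ => p ^ k * d) := by
    intro a b h
    exact Nat.eq_of_mul_eq_mul_left (pow_pos hp.pos k) h
  have hsupp : Function.support (a11_g M p k) ⊆ Set.range (fun d : ℕ => p ^ k * d) := by
    intro d hd
    rw [Function.mem_support] at hd
    unfold a11_g at hd
    have h1 : d.factorization p = k := by
      by_contra h; rw [if_neg h] at hd; exact hd rfl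
    have h2 : p ^ k ∣ d := by
      rw [← h1]; exact Nat.ordProj_dvd d p
    obtain ⟨c, hc⟩ := h2
    exact ⟨c, hc.symm⟩
  rw [← hinj.tsum_eq hsupp]
  have h1 : ∀ d : ℕ, a11_g M p k (p ^ k * d) =
      (bM M (p ^ k) / (p ^ k : ℕ)) * (if p ∣ d then 0 else bM M d / d) := by
    intro d
    unfold a11_g
    rcases Nat.eq_zero_or_pos d with h0 | h0
    · subst h0; simp
    · have hf : (p ^ k * d).factorization p = k + d.factorization p := by
        rw [Nat.factorization_mul (pow_ne_zero k hp.ne_zero) (by omega), Finsupp.add_apply,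
          hp.factorization_pow]
        simp
      rw [hf]
      by_cases hd : p ∣ d
      · rw [if_pos hd, mul_zero, if_neg]
        have : 1 ≤ d.factorization p := hp.factorization_pos_of_dvd (by omega) hd
        omega
      · rw [if_neg hd, if_pos (by rw [Nat.factorization_eq_zero_of_not_dvd hd, add_zero])]
        have hcop : Nat.Coprime (p ^ k) d := Nat.Coprime.pow_left k ((hp.coprime_iff_not_dvd).mpr hd)
        rw [a11_mul M hcop]
        push_cast
        rw [mul_div_mul_comm]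
  rw [tsum_congr h1, tsum_mul_left]

lemma a11_val (M p d : ℕ) (hp : p.Prime) :
    (d.factorization p : ℝ) * (bM M d / d) = a11_g M p 1 d + 2 * a11_g M p 2 d := by
  unfold a11_g
  rcases Nat.eq_zero_or_pos d with h0 | h0
  · subst h0; simp
  · by_cases h3 : 3 ≤ d.factorization p
    · rw [a11_zero M p hp d (by omega) h3]; simp
    · have : d.factorization p = 0 ∨ d.factorization p = 1 ∨ d.factorization p = 2 := by omega
      rcases this with h | h | h <;> rw [h] <;> simp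

lemma a11_col (M : ℕ) (hM : 1 ≤ M) (h2M : 2 ∣ M) (p : ℕ) (hp : p.Prime) :
    ∑' d : ℕ, (d.factorization p : ℝ) * (bM M d / d) =
      if p ∣ M then -(1 / ((p : ℝ) - 1) * ∑' d : ℕ, bM M d / d) else 0 := by
  rw [tsum_congr (fun d => a11_val M p d hp),
    ((a11_g_summ M hM h2M p 1)).tsum_add ((a11_g_summ M hM h2M p 2).mul_left 2), tsum_mul_left,
    a11_g_tsum M p 1 hp le_rfl, a11_g_tsum M p 2 hp (by norm_num), a11_pow M hp one_ne_zero,
    a11_pow M hp two_ne_zero]
  by_cases h2 : p ∣ M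
  · rw [if_pos h2]
    have e1 : ∀ d : ℕ, bM M d / (d : ℝ) = (if p ∣ d then 0 else bM M d / d) + a11_g M p 1 d := by
      intro d
      rcases Nat.eq_zero_or_pos d with h0 | h0
      · subst h0; simp [a11_g]
      · unfold a11_g
        by_cases hd : p ∣ d
        · rw [if_pos hd, zero_add]
          have h1 : 1 ≤ d.factorization p := hp.factorization_pos_of_dvd (by omega) hd
          by_cases h3 : d.factorization p = 1
          · rw [if_pos h3]
          · rw [if_neg h3]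
            have : bM M d = 0 := by
              rw [a11_bb]
              apply Finset.prod_eq_zero (i := p)
              · rw [Nat.mem_primeFactors]
                exact ⟨hp, hd, by omega⟩
              · rw [a11_loc, if_pos h2, if_neg h3]
            rw [this, zero_div]
        · rw [if_neg hd, if_neg (by rw [Nat.factorization_eq_zero_of_not_dvd hd]; norm_num),
            add_zero]
    have hsum : Summable (fun d : ℕ => (if p ∣ d then (0 : ℝ) else bM M d / d)) := by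
      apply Summable.of_norm_bounded (a11_norm_summ M hM h2M)
      intro d
      split_ifs
      · rw [norm_zero]; exact norm_nonneg _
      · exact le_refl _
    have e2 : ∑' d : ℕ, bM M d / (d : ℝ) = ∑' d : ℕ, (if p ∣ d then (0 : ℝ) else bM M d / d) +
        a11_loc M p 1 / ((p ^ 1 : ℕ) : ℝ) * ∑' d : ℕ, (if p ∣ d then 0 else bM M d / d) := by
      rw [← a11_pow M hp one_ne_zero, ← a11_g_tsum M p 1 hp le_rfl,
        ← hsum.tsum_add (a11_g_summ M hM h2M p 1)]
      exact tsum_congr e1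
    rw [e2]
    have l1 : a11_loc M p 1 = -1 := by simp [a11_loc, h2]
    have l2 : a11_loc M p 2 = 0 := by simp [a11_loc, h2]
    rw [l1, l2]
    have hp2 : (2 : ℝ) ≤ p := by exact_mod_cast hp.two_le
    have h5 : (p : ℝ) ≠ 0 := by linarith
    have h6 : (p : ℝ) - 1 ≠ 0 := by linarith
    push_cast
    field_simp
    ring
  · have h3 := a11_three h2M hp h2
    have h4 : (p : ℝ) - 2 ≠ 0 := by linarith
    have h5 : (p : ℝ) ≠ 0 := by linarith
    rw [if_neg h2, a11_loc, a11_loc, if_neg h2, if_neg h2, if_pos rfl, if_neg (by norm_num),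
      if_pos rfl, ← mul_assoc, ← add_mul]
    have : 2 / ((p : ℝ) - 2) / ((p ^ 1 : ℕ) : ℝ) + 2 * (-(p : ℝ) / ((p : ℝ) - 2) / ((p ^ 2 : ℕ) : ℝ))
        = 0 := by
      push_cast
      field_simp
      ring
    rw [this, zero_mul]

/-- the double function -/
noncomputable def a11_F (M d : ℕ) (p : Nat.Primes) : ℝ :=
  (d.factorization (p : ℕ) : ℝ) * Real.log (p : ℕ) * (bM M d / d)

lemma a11_row (d : ℕ) : HasSum (fun p : Nat.Primes => (d.factorization (p : ℕ) : ℝ) *
    Real.log (p : ℕ)) (Real.log d) := by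
  have h1 : HasSum (fun n : ℕ => (d.factorization n : ℝ) * Real.log n) (Real.log d) := by
    rw [Real.log_nat_eq_sum_factorization, Finsupp.sum]
    apply hasSum_sum_of_ne_finset_zero
    intro n hn
    rw [Finsupp.notMem_support_iff] at hn
    rw [hn]; simp
  have h2 : Function.support (fun n : ℕ => (d.factorization n : ℝ) * Real.log n) ⊆
      Set.range (fun p : Nat.Primes => (p : ℕ)) := by
    intro n hn
    rw [Function.mem_support] at hn
    by_contra hc
    apply hn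
    have : ¬ n.Prime := by
      intro hp; exact hc ⟨⟨n, hp⟩, rfl⟩
    rw [Nat.factorization_eq_zero_of_not_prime d this]; simp
  exact ((Function.Injective.hasSum_iff (Subtype.val_injective) (fun x hx => by
    by_contra hne
    exact hx (h2 hne))).mpr h1)

lemma a11_F_summ (M : ℕ) (hM : 1 ≤ M) (h2M : 2 ∣ M) : Summable (Function.uncurry (a11_F M)) := by
  rw [← summable_abs_iff]
  rw [summable_prod_of_nonneg (fun _ => abs_nonneg _)]
  have hrow : ∀ d : ℕ, HasSum (fun p : Nat.Primes => |Function.uncurry (a11_F M) (d, p)|)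
      (Real.log d * |bM M d / d|) := by
    intro d
    have h := (a11_row d).mul_right (|bM M d / d|)
    have he : (fun p : Nat.Primes => |Function.uncurry (a11_F M) (d, p)|) =
        fun p : Nat.Primes => (d.factorization (p : ℕ) : ℝ) * Real.log (p : ℕ) * |bM M d / d| := by
      funext p
      simp only [Function.uncurry, a11_F]
      rw [abs_mul, abs_of_nonneg (mul_nonneg (Nat.cast_nonneg _) (Real.log_natCast_nonneg _))]
    rw [he]
    exact h
  constructor
  · intro d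
    exact (hrow d).summable
  · apply Summable.of_nonneg_of_le (g := fun d : ℕ => ∑' p, |Function.uncurry (a11_F M) (d, p)|)
      (f := fun d : ℕ => |bM M d| * (1 + Real.log d) / d) _ _ (a11_summable M hM h2M)
    · intro d
      exact tsum_nonneg (fun _ => abs_nonneg _)
    · intro d
      rw [(hrow d).tsum_eq, abs_div, Nat.abs_cast]
      rw [← mul_div_assoc]
      apply div_le_div_of_nonneg_right _ (Nat.cast_nonneg _)
      have : 0 ≤ Real.log d := Real.log_natCast_nonneg d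
      nlinarith [abs_nonneg (bM M d)]

/-- a function on the primes supported on a finite set -/
theorem a11_sumS (s : Finset ℕ) (hs : ∀ p ∈ s, p.Prime) (f : ℕ → ℝ) :
    HasSum (fun p : Nat.Primes => if (p : ℕ) ∈ s then f p else 0) (∑ p ∈ s, f p) := by
  classical
  have h1 : HasSum (fun n : ℕ => if n ∈ s then f n else 0) (∑ p ∈ s, f p) := by
    have h : HasSum (fun n : ℕ => if n ∈ s then f n else 0) (∑ b ∈ s, (if b ∈ s then f b else 0)) :=
      hasSum_sum_of_ne_finset_zero (fun n hn => by simp only [if_neg hn])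
    have e : ∑ p ∈ s, f p = ∑ b ∈ s, (if b ∈ s then f b else 0) :=
      Finset.sum_congr rfl fun p hp => by rw [if_pos hp]
    rw [e]
    exact h
  exact ((Function.Injective.hasSum_iff (g := fun p : Nat.Primes => (p : ℕ))
    (Subtype.val_injective) (fun x hx => by
      rw [if_neg]
      intro hxs
      exact hx ⟨⟨x, hs x hxs⟩, rfl⟩)).mpr h1)

/-- a function on the primes equal to `1` outside a finite set -/
theorem a11_prodS (s : Finset ℕ) (hs : ∀ p ∈ s, p.Prime) (f : ℕ → ℝ) :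
    HasProd (fun p : Nat.Primes => if (p : ℕ) ∈ s then f p else 1) (∏ p ∈ s, f p) := by
  classical
  have h1 : HasProd (fun n : ℕ => if n ∈ s then f n else 1) (∏ p ∈ s, f p) := by
    have h : HasProd (fun n : ℕ => if n ∈ s then f n else 1) (∏ b ∈ s, (if b ∈ s then f b else 1)) :=
      hasProd_prod_of_ne_finset_one (fun n hn => by simp only [if_neg hn])
    have e : ∏ p ∈ s, f p = ∏ b ∈ s, (if b ∈ s then f b else 1) :=
      Finset.prod_congr rfl fun p hp => by rw [if_pos hp]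
    rw [e]
    exact h
  exact ((Function.Injective.hasProd_iff (g := fun p : Nat.Primes => (p : ℕ))
    (Subtype.val_injective) (fun x hx => by
      rw [if_neg]
      intro hxs
      exact hx ⟨⟨x, hs x hxs⟩, rfl⟩)).mpr h1)

theorem a11_log (M : ℕ) (hM : 1 ≤ M) (h2M : 2 ∣ M) : ∑' d : ℕ, bM M d * Real.log d / d =
    - (∑ p ∈ M.primeFactors, Real.log p / ((p : ℝ) - 1)) * ∑' d : ℕ, bM M d / d := by
  have hcol : ∀ p : Nat.Primes, ∑' d : ℕ, a11_F M d p =
      if (p : ℕ) ∈ M.primeFactors then - (Real.log (p : ℕ) / (((p : ℕ) : ℝ) - 1)) *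
        ∑' d : ℕ, bM M d / d else 0 := by
    intro p
    have h1 : ∀ d : ℕ, a11_F M d p = Real.log (p : ℕ) *
        ((d.factorization (p : ℕ) : ℝ) * (bM M d / d)) := by
      intro d; unfold a11_F; ring
    rw [tsum_congr h1, tsum_mul_left, a11_col M hM h2M p p.2]
    by_cases h2 : (p : ℕ) ∣ M
    · rw [if_pos h2, if_pos (Nat.mem_primeFactors.mpr ⟨p.2, h2, by omega⟩)]
      ring
    · rw [if_neg h2, if_neg (fun h => h2 (Nat.dvd_of_mem_primeFactors h)), mul_zero]
  have hS := a11_F_summ M hM h2M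
  have hrow : ∀ d : ℕ, bM M d * Real.log d / d = ∑' p : Nat.Primes, a11_F M d p := by
    intro d
    have h := ((a11_row d).mul_right (bM M d / d)).tsum_eq
    have h2 : ∑' p : Nat.Primes, a11_F M d p = Real.log d * (bM M d / d) := h
    rw [h2]; ring
  rw [tsum_congr hrow, ← hS.tsum_comm, tsum_congr hcol]
  rw [(a11_sumS M.primeFactors (fun p hp => Nat.prime_of_mem_primeFactors hp)
    (fun p => - (Real.log p / ((p : ℝ) - 1)) * ∑' d : ℕ, bM M d / d)).tsum_eq]
  rw [← Finset.sum_mul, Finset.sum_neg_distrib]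

theorem a11_tp : HasProd (fun p : Nat.Primes => if (p : ℕ) = 2 then 2 else 1 : Nat.Primes → ℝ) 2 := by
  have := hasProd_single (f := fun p : Nat.Primes => if (p : ℕ) = 2 then (2 : ℝ) else 1)
    (⟨2, Nat.prime_two⟩ : Nat.Primes) (by
      intro p hp
      rw [if_neg]
      intro h
      exact hp (Subtype.ext h))
  rwa [if_pos rfl] at this

/-- the factors of `GM` -/
theorem a11_gm (M : ℕ) (C2 : ℝ) (hC : IsC2 C2) :
    HasProd (fun p : Nat.Primes => ((if (p : ℕ) = 2 then (2 : ℝ) else 1) *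
        (if (p : ℕ) = 2 then 1 else (1 - 1 / (((p : ℕ) : ℝ) - 1) ^ 2))) *
        (if (p : ℕ) ∈ M.primeFactors.erase 2 then ((((p : ℕ) : ℝ) - 1) / (((p : ℕ) : ℝ) - 2))
          else 1)) (GM C2 M) :=
  (a11_tp.mul hC.2).mul (a11_prodS (M.primeFactors.erase 2)
    (fun _p hp => Nat.prime_of_mem_primeFactors (Finset.mem_of_mem_erase hp))
    (fun p => ((p : ℝ) - 1) / ((p : ℝ) - 2)))

/-- the factors of `M / φ(M)` -/
theorem a11_tot (M : ℕ) (hM : 1 ≤ M) :
    HasProd (fun p : Nat.Primes => if (p : ℕ) ∈ M.primeFactors then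
      (((p : ℕ) : ℝ) / (((p : ℕ) : ℝ) - 1)) else 1) (M / Nat.totient M : ℝ) := by
  have h := a11_prodS M.primeFactors (fun p hp => Nat.prime_of_mem_primeFactors hp)
    (fun p => (p : ℝ) / ((p : ℝ) - 1))
  have e : ∏ p ∈ M.primeFactors, ((p : ℝ) / ((p : ℝ) - 1)) = (M / Nat.totient M : ℝ) := by
    have h1 : ((Nat.totient M : ℚ) : ℝ) =
        ((M * ∏ p ∈ M.primeFactors, (1 - (p : ℚ)⁻¹) : ℚ) : ℝ) := by
      rw [Nat.totient_eq_mul_prod_factors]
    push_cast at h1
    have hM0 : (M : ℝ) ≠ 0 := by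
      have : (1 : ℝ) ≤ M := by exact_mod_cast hM
      linarith
    have hP : ∀ p ∈ M.primeFactors, (p : ℝ) / ((p : ℝ) - 1) = (1 - (p : ℝ)⁻¹)⁻¹ := by
      intro p hp
      have hp2 : (2 : ℝ) ≤ p := by exact_mod_cast (Nat.prime_of_mem_primeFactors hp).two_le
      have h5 : (p : ℝ) ≠ 0 := by linarith
      have h6 : (p : ℝ) - 1 ≠ 0 := by linarith
      have h7 : (1 - (p : ℝ)⁻¹) = ((p : ℝ) - 1) / p := by
        field_simp
      rw [h7, inv_div]
    rw [Finset.prod_congr rfl hP, Finset.prod_inv_distrib, h1, div_mul_eq_div_div, div_self hM0,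
      one_div]
  rw [← e]
  exact h

/-- block A11 -/
theorem A11_pr : A11 := by
  intro M hM h2M
  have h2mem : 2 ∈ M.primeFactors := Nat.mem_primeFactors.mpr ⟨Nat.prime_two, h2M, by omega⟩
  refine ⟨a11_summable M hM h2M, fun C2 hC => ⟨?_, ?_, a11_log M hM h2M⟩⟩
  · have h := (a11_gm M C2 hC).mul (a11_ep1 M hM h2M)
    refine h.unique ?_
    have h1 : (fun p : Nat.Primes => ((((if (p : ℕ) = 2 then (2 : ℝ) else 1) *
        (if (p : ℕ) = 2 then 1 else (1 - 1 / (((p : ℕ) : ℝ) - 1) ^ 2))) *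
        (if (p : ℕ) ∈ M.primeFactors.erase 2 then ((((p : ℕ) : ℝ) - 1) / (((p : ℕ) : ℝ) - 2))
          else 1)) * (if (p : ℕ) ∣ M then 1 - 1 / ((p : ℕ) : ℝ) else
          (((p : ℕ) : ℝ) - 1) ^ 2 / (((p : ℕ) : ℝ) * (((p : ℕ) : ℝ) - 2))))) = fun _ => 1 := by
      funext p
      by_cases h2 : (p : ℕ) = 2
      · rw [h2, if_pos rfl, if_pos rfl, if_neg (Finset.notMem_erase 2 _), if_pos h2M]
        norm_num
      · by_cases hpM : (p : ℕ) ∣ M
        · have hmem : (p : ℕ) ∈ M.primeFactors.erase 2 :=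
            Finset.mem_erase.mpr ⟨h2, Nat.mem_primeFactors.mpr ⟨p.2, hpM, by omega⟩⟩
          rw [if_neg h2, if_neg h2, if_pos hmem, if_pos hpM]
          have h3 : (3 : ℝ) ≤ ((p : ℕ) : ℝ) := by
            have := p.2.two_le
            have : 3 ≤ (p : ℕ) := by omega
            exact_mod_cast this
          have h4 : ((p : ℕ) : ℝ) - 2 ≠ 0 := by linarith
          have h5 : ((p : ℕ) : ℝ) ≠ 0 := by linarith
          have h6 : ((p : ℕ) : ℝ) - 1 ≠ 0 := by linarith
          field_simp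
          ring
        · have hmem : (p : ℕ) ∉ M.primeFactors.erase 2 := fun h =>
            hpM (Nat.dvd_of_mem_primeFactors (Finset.mem_of_mem_erase h))
          rw [if_neg h2, if_neg h2, if_neg hmem, if_neg hpM]
          have h3 := a11_three h2M p.2 hpM
          have h4 : ((p : ℕ) : ℝ) - 2 ≠ 0 := by linarith
          have h5 : ((p : ℕ) : ℝ) ≠ 0 := by linarith
          have h6 : ((p : ℕ) : ℝ) - 1 ≠ 0 := by linarith
          field_simp
          ring
    rw [h1]
    exact hasProd_one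
  · have h := ((a11_gm M C2 hC).mul (a11_ep2 M hM h2M)).mul a11_zeta
    have h1 : (fun p : Nat.Primes => (((((if (p : ℕ) = 2 then (2 : ℝ) else 1) *
        (if (p : ℕ) = 2 then 1 else (1 - 1 / (((p : ℕ) : ℝ) - 1) ^ 2))) *
        (if (p : ℕ) ∈ M.primeFactors.erase 2 then ((((p : ℕ) : ℝ) - 1) / (((p : ℕ) : ℝ) - 2))
          else 1)) * (if (p : ℕ) ∣ M then 1 - (((p : ℕ) : ℝ) ^ 2)⁻¹ else
        ((((p : ℕ) : ℝ) ^ 2 - 1) * (((p : ℕ) : ℝ) - 1) ^ 2) /
          (((p : ℕ) : ℝ) ^ 3 * (((p : ℕ) : ℝ) - 2)))) * (1 - (((p : ℕ) : ℝ) ^ 2)⁻¹)⁻¹)) =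
        (fun p : Nat.Primes => if (p : ℕ) ∈ M.primeFactors then
      (((p : ℕ) : ℝ) / (((p : ℕ) : ℝ) - 1)) else 1) := by
      funext p
      have hp2 : (2 : ℝ) ≤ ((p : ℕ) : ℝ) := by exact_mod_cast p.2.two_le
      have h5 : ((p : ℕ) : ℝ) ≠ 0 := by linarith
      have h7 : ((p : ℕ) : ℝ) ^ 2 - 1 ≠ 0 := by nlinarith
      have h9 : (1 - (((p : ℕ) : ℝ) ^ 2)⁻¹) = (((p : ℕ) : ℝ) ^ 2 - 1) / ((p : ℕ) : ℝ) ^ 2 := by
        field_simp
      have h10 : (1 - (((p : ℕ) : ℝ) ^ 2)⁻¹) ≠ 0 := by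
        rw [h9]
        exact div_ne_zero h7 (pow_ne_zero 2 h5)
      by_cases hpM : (p : ℕ) ∣ M
      · have hmemM : (p : ℕ) ∈ M.primeFactors := Nat.mem_primeFactors.mpr ⟨p.2, hpM, by omega⟩
        rw [if_pos hpM, if_pos hmemM, mul_assoc _ (1 - (((p : ℕ) : ℝ) ^ 2)⁻¹), mul_inv_cancel₀ h10,
          mul_one]
        by_cases h2 : (p : ℕ) = 2
        · rw [h2, if_pos rfl, if_pos rfl, if_neg (Finset.notMem_erase 2 _)]
          norm_num
        · have hmem : (p : ℕ) ∈ M.primeFactors.erase 2 := Finset.mem_erase.mpr ⟨h2, hmemM⟩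
          rw [if_neg h2, if_neg h2, if_pos hmem]
          have h3 : (3 : ℝ) ≤ ((p : ℕ) : ℝ) := by
            have := p.2.two_le
            have : 3 ≤ (p : ℕ) := by omega
            exact_mod_cast this
          have h4 : ((p : ℕ) : ℝ) - 2 ≠ 0 := by linarith
          have h6 : ((p : ℕ) : ℝ) - 1 ≠ 0 := by linarith
          field_simp
          ring
      · have hmemM : (p : ℕ) ∉ M.primeFactors := fun h => hpM (Nat.dvd_of_mem_primeFactors h)
        have h2 : (p : ℕ) ≠ 2 := by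
          intro h
          exact hpM (h ▸ h2M)
        have hmem : (p : ℕ) ∉ M.primeFactors.erase 2 := fun h =>
          hmemM (Finset.mem_of_mem_erase h)
        rw [if_neg h2, if_neg h2, if_neg hmem, if_neg hpM, if_neg hmemM]
        have h3 := a11_three h2M p.2 hpM
        have h4 : ((p : ℕ) : ℝ) - 2 ≠ 0 := by linarith
        have h6 : ((p : ℕ) : ℝ) - 1 ≠ 0 := by linarith
        rw [h9, inv_div]
        field_simp
        ring
    rw [h1] at h
    have h2 := h.unique (a11_tot M hM)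
    have hpi : Real.pi ≠ 0 := Real.pi_ne_zero
    rw [← h2]
    field_simp

end Pool.Agent.FGA
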